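import Pool.Agent.Helper38.WM.St

set_option autoImplicit false

namespace Pool.Agent.Helper60.WM

open Pool.Agent.Helper38.WM

theorem hIDX : Pool.Agent.Helper38.WM.StIDX := by
  classical
  intro p _ S _ F V n
  have hDn : (F.D n).Normal := F.D_normal n
  have hDf : (F.D n).FiniteIndex := F.D_finiteIndex n
  have hUf : (V ⊔ F.D n).FiniteIndex := Subgroup.finiteIndex_of_le (le_sup_right : F.D n ≤ V ⊔ F.D n)
  have hfin : Module.Finite (ZMod p) (GA p S ⧸ F.J n) := F.fin n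
  have : Fintype (S ⧸ (V ⊔ F.D n)) := Fintype.ofFinite _
  let t : S ⧸ (V ⊔ F.D n) → S := Quotient.out
  have ht : ∀ g : S, ((g : S ⧸ (V ⊔ F.D n))) = ((t (g : S ⧸ (V ⊔ F.D n)) : S) : S ⧸ (V ⊔ F.D n)) :=
    fun g => (Quotient.out_eq _).symm
  let L : S ⧸ (V ⊔ F.D n) → (GA p S ⧸ F.J n) →ₗ[ZMod p] (GA p S ⧸ F.J n) := fun c =>
    (F.J n).mapQ (F.J n) (LinearMap.mulLeft (ZMod p) (el p (t c))) (fun b hb => F.mul_left _ hb)
  let Φ : (S ⧸ (V ⊔ F.D n) → F.P V n) →ₗ[ZMod p] (GA p S ⧸ F.J n) :=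
    ∑ c, (L c ∘ₗ (F.P V n).subtype) ∘ₗ LinearMap.proj c
  have hΦ : ∀ (c : S ⧸ (V ⊔ F.D n)) (u : F.P V n), Φ (Pi.single c u) = L c u := by
    intro c u
    simp only [Φ, LinearMap.sum_apply, LinearMap.comp_apply, LinearMap.proj_apply]
    rw [Finset.sum_eq_single c]
    · rw [Pi.single_eq_same]; rfl
    · intro b _ hb
      rw [Pi.single_eq_of_ne hb]; simp
    · intro h; exact absurd (Finset.mem_univ c) h
  have hcls : ∀ g : S, (F.J n).mkQ (el p g) ∈ LinearMap.range Φ := by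
    intro g
    have h1 : (t (g : S ⧸ (V ⊔ F.D n)))⁻¹ * g ∈ V ⊔ F.D n :=
      QuotientGroup.eq.mp (ht g).symm
    obtain ⟨v, hv, x, hx, hvx⟩ := Subgroup.mem_sup_of_normal_right.mp h1
    have hg : g = t (g : S ⧸ (V ⊔ F.D n)) * (v * x) := by rw [hvx]; group
    have hvP : (F.J n).mkQ (el p v) ∈ F.P V n :=
      Submodule.mem_map_of_mem (Submodule.subset_span ⟨v, hv, rfl⟩)
    refine ⟨Pi.single (g : S ⧸ (V ⊔ F.D n)) ⟨_, hvP⟩, ?_⟩
    rw [hΦ]
    show (F.J n).mapQ (F.J n) (LinearMap.mulLeft (ZMod p) (el p (t (g : S ⧸ (V ⊔ F.D n))))) _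
      ((F.J n).mkQ (el p v)) = (F.J n).mkQ (el p g)
    rw [Submodule.mkQ_apply, Submodule.mapQ_apply, Submodule.mkQ_apply, eq_comm,
      Submodule.Quotient.eq]
    have hxJ : el p x - 1 ∈ F.J n := hx
    have h2 := F.mul_left (el p (t (g : S ⧸ (V ⊔ F.D n)) * v)) hxJ
    have e : el p (t (g : S ⧸ (V ⊔ F.D n)) * v) * (el p x - 1) =
        el p g - LinearMap.mulLeft (ZMod p) (el p (t (g : S ⧸ (V ⊔ F.D n)))) (el p v) := by
      rw [mul_sub, mul_one, LinearMap.mulLeft_apply]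
      have e1 : el p (t (g : S ⧸ (V ⊔ F.D n)) * v) * el p x = el p g := by
        conv_rhs => rw [hg]
        rw [el, el, el, ← map_mul, mul_assoc]
      have e2 : el p (t (g : S ⧸ (V ⊔ F.D n)) * v) =
          el p (t (g : S ⧸ (V ⊔ F.D n))) * el p v := by
        rw [el, map_mul]
      rw [e1, e2]
    rw [← e]
    exact h2
  have hsurj : Function.Surjective Φ := by
    rw [← LinearMap.range_eq_top, eq_top_iff]
    intro y _
    obtain ⟨a, rfl⟩ := (F.J n).mkQ_surjective y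
    induction a using MonoidAlgebra.induction_on with
    | of g => exact hcls g
    | add a b ha hb =>
      rw [map_add]
      exact Submodule.add_mem _ (ha trivial) (hb trivial)
    | smul r a ha =>
      rw [map_smul]
      exact Submodule.smul_mem _ _ (ha trivial)
  have hPfin : Module.Finite (ZMod p) (F.P V n) := inferInstance
  have h3 := LinearMap.finrank_le_finrank_of_surjective hsurj
  rw [Module.finrank_pi_fintype, Finset.sum_const, Finset.card_univ, smul_eq_mul] at h3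
  rw [Subgroup.index, Nat.card_eq_fintype_card]
  exact h3

end Pool.Agent.Helper60.WM
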